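import Pool.Agent.MP_f42450_an.Extra

/-!
# Hardy–Morrey constant of domains bounded by a topological sphere

We prove that `λ_p(Ω) ≥ λ_p(𝒞^n_π)` for every `n ≥ 1`, every `p > n` and every bounded open set
`Ω ⊂ ℝⁿ` whose boundary is homeomorphic to the sphere `𝕊^{n-1}`.
-/

open MeasureTheory Metric Set Filter Topology
open scoped ENNReal NNReal RealInnerProductSpace ContDiff

namespace Pool.Agent.Results.MP_f42450_an.HardyMorreySphere

/-- `G` is the weak gradient of `u` on `ℝⁿ`: for every index `i`, the component `G i` is the weak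
`i`-th partial derivative of `u`, tested against all smooth compactly supported functions. -/
def IsWeakGradient {n : ℕ} (u : EuclideanSpace ℝ (Fin n) → ℝ)
    (G : EuclideanSpace ℝ (Fin n) → EuclideanSpace ℝ (Fin n)) : Prop :=
  ∀ φ : EuclideanSpace ℝ (Fin n) → ℝ, ContDiff ℝ ∞ φ → HasCompactSupport φ → ∀ i : Fin n,
    ∫ x, u x * fderiv ℝ φ x (EuclideanSpace.single i 1) = - ∫ x, G x i * φ x

/-- `u` is a nonzero element of `𝒟₀^{1,p}(Ω)` and `G` is its weak gradient: `u` is continuous on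
`ℝⁿ` (the elements of `𝒟^{1,p}` are identified with their continuous representatives), its weak
gradient `G` lies in `L^p(ℝⁿ)`, `u` vanishes at every point outside `Ω`, and `u` is not
identically zero. -/
structure IsAdmissible {n : ℕ} (p : ℝ) (Ω : Set (EuclideanSpace ℝ (Fin n)))
    (u : EuclideanSpace ℝ (Fin n) → ℝ)
    (G : EuclideanSpace ℝ (Fin n) → EuclideanSpace ℝ (Fin n)) : Prop where
  continuous : Continuous u
  memLp : MemLp G (ENNReal.ofReal p) volume
  weak : IsWeakGradient u G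
  zero_outside : ∀ x, x ∉ Ω → u x = 0
  ne_zero : ∃ x, u x ≠ 0

/-- The Hardy–Morrey constant `λ_p(Ω)`: the infimum over nonzero `u ∈ 𝒟₀^{1,p}(Ω)` of
`‖Du‖_{L^p}^p / ‖u / d_Ω^{1-n/p}‖_{L^∞(Ω)}^p`, where `d_Ω(x)` is the distance to the complement. -/
noncomputable def hardyMorrey {n : ℕ} (p : ℝ) (Ω : Set (EuclideanSpace ℝ (Fin n))) : ℝ≥0∞ :=
  ⨅ (u : EuclideanSpace ℝ (Fin n) → ℝ)
    (G : EuclideanSpace ℝ (Fin n) → EuclideanSpace ℝ (Fin n)) (_ : IsAdmissible p Ω u G),
    eLpNorm G (ENNReal.ofReal p) volume ^ p /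
      eLpNorm (fun x => u x / infDist x Ωᶜ ^ (1 - (n : ℝ) / p)) ⊤ (volume.restrict Ω) ^ p

/-- The open cone `𝒞^n_θ = {x : x · e_n > |x| cos θ}` of half-opening angle `θ` about the last
coordinate direction `e_n` of `ℝⁿ`, `n ≥ 1`. -/
def openCone (n : ℕ) (hn : 1 ≤ n) (θ : ℝ) : Set (EuclideanSpace ℝ (Fin n)) :=
  {x | ‖x‖ * Real.cos θ < x ⟨n - 1, by omega⟩}

section proof

open Pool.Agent.MP_f42450_an

variable {n : ℕ}

theorem isWeakGrad_of {p : ℝ} (hp : 1 < p) {u : EuclideanSpace ℝ (Fin n) → ℝ}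
    {G : EuclideanSpace ℝ (Fin n) → EuclideanSpace ℝ (Fin n)} (hu : Continuous u)
    (hG : MemLp G (ENNReal.ofReal p) volume) (h : IsWeakGradient u G) : IsWeakGrad u G := by
  intro φ hφ hc v
  have hp1 : 1 ≤ ENNReal.ofReal p := by
    rw [← ENNReal.ofReal_one]
    exact ENNReal.ofReal_le_ofReal hp.le
  obtain ⟨q, hq⟩ : ∃ q : ℝ≥0∞, (ENNReal.ofReal p).HolderConjugate q :=
    ⟨(1 - (ENNReal.ofReal p)⁻¹)⁻¹, ENNReal.HolderConjugate.inv_one_sub_inv' hp1⟩
  have : (ENNReal.ofReal p).HolderTriple q 1 := hq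
  have hv : v = ∑ i, v i • EuclideanSpace.single i (1 : ℝ) := by
    have := (EuclideanSpace.basisFun (Fin n) ℝ).sum_repr v
    simpa using this.symm
  have e1 : ∀ x, fderiv ℝ φ x v = ∑ i, v i * fderiv ℝ φ x (EuclideanSpace.single i 1) := by
    intro x
    conv_lhs => rw [hv]
    rw [map_sum]
    simp
  have e2 : ∀ x, ⟪G x, v⟫ = ∑ i, v i * G x i := by
    intro x
    rw [PiLp.inner_apply]
    simp
  have i1 : ∀ i : Fin n, Integrable
      (fun x => v i * (u x * fderiv ℝ φ x (EuclideanSpace.single i 1))) := fun i =>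
    (integrable_mul_testDeriv hu hφ hc _).const_mul _
  have i2 : ∀ i : Fin n, Integrable (fun x => v i * (G x i * φ x)) := by
    intro i
    have h1 := integrable_pairing hG (memLp_test hφ hc q) (EuclideanSpace.single i 1)
    refine (h1.congr (Eventually.of_forall fun x => ?_)).const_mul _
    simp [EuclideanSpace.inner_single_right]
  calc ∫ x, u x * fderiv ℝ φ x v
      = ∫ x, ∑ i, v i * (u x * fderiv ℝ φ x (EuclideanSpace.single i 1)) := by
        refine integral_congr_ae (Eventually.of_forall fun x => ?_)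
        simp only [e1, Finset.mul_sum]
        refine Finset.sum_congr rfl fun i _ => ?_
        ring
    _ = ∑ i, v i * ∫ x, u x * fderiv ℝ φ x (EuclideanSpace.single i 1) := by
        rw [integral_finsetSum _ (fun i _ => i1 i)]
        refine Finset.sum_congr rfl fun i _ => ?_
        rw [integral_const_mul]
    _ = - ∑ i, v i * ∫ x, G x i * φ x := by
        rw [← Finset.sum_neg_distrib]
        refine Finset.sum_congr rfl fun i _ => ?_
        rw [h φ hφ hc i]
        ring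
    _ = - ∫ x, ∑ i, v i * (G x i * φ x) := by
        rw [integral_finsetSum _ (fun i _ => i2 i)]
        congr 1
        refine Finset.sum_congr rfl fun i _ => ?_
        rw [integral_const_mul]
    _ = - ∫ x, ⟪G x, v⟫ * φ x := by
        congr 1
        refine integral_congr_ae (Eventually.of_forall fun x => ?_)
        simp only [e2, Finset.sum_mul]
        refine Finset.sum_congr rfl fun i _ => ?_
        ring

theorem isWeakGradient_of {u : EuclideanSpace ℝ (Fin n) → ℝ}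
    {G : EuclideanSpace ℝ (Fin n) → EuclideanSpace ℝ (Fin n)} (h : IsWeakGrad u G) :
    IsWeakGradient u G := by
  intro φ hφ hc i
  rw [h φ hφ hc (EuclideanSpace.single i 1)]
  congr 1
  refine integral_congr_ae (Eventually.of_forall fun x => ?_)
  simp [EuclideanSpace.inner_single_right]

/-- the last unit vector -/
noncomputable def eL (hn : 1 ≤ n) : EuclideanSpace ℝ (Fin n) :=
  EuclideanSpace.single ⟨n - 1, by omega⟩ 1

theorem norm_eL (hn : 1 ≤ n) : ‖eL hn‖ = 1 := by
  simp [eL]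

theorem mem_cone (hn : 1 ≤ n) (x : EuclideanSpace ℝ (Fin n)) :
    x ∈ openCone n hn Real.pi ↔ -‖x‖ < ⟪x, eL hn⟫ := by
  simp [openCone, eL, EuclideanSpace.inner_single_right]

theorem isOpen_cone (hn : 1 ≤ n) : IsOpen (openCone n hn Real.pi) := by
  have : openCone n hn Real.pi = {x | -‖x‖ < ⟪x, eL hn⟫} := by
    ext x
    exact mem_cone hn x
  rw [this]
  exact isOpen_lt (by fun_prop) (by fun_prop)

theorem eL_mem (hn : 1 ≤ n) : eL hn ∈ openCone n hn Real.pi := by
  rw [mem_cone, real_inner_self_eq_norm_sq, norm_eL]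
  norm_num

theorem infDist_eL (hn : 1 ≤ n) : 0 < infDist (eL hn) (openCone n hn Real.pi)ᶜ ∧
    infDist (eL hn) (openCone n hn Real.pi)ᶜ ≤ 1 := by
  have h0 : (0 : EuclideanSpace ℝ (Fin n)) ∈ (openCone n hn Real.pi)ᶜ := by
    rw [mem_compl_iff, mem_cone]
    simp
  constructor
  · have hcl : IsClosed (openCone n hn Real.pi)ᶜ := (isOpen_cone hn).isClosed_compl
    rw [← hcl.notMem_iff_infDist_pos ⟨0, h0⟩]
    exact fun h => h (eL_mem hn)
  · have := infDist_le_dist_of_mem (x := eL hn) h0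
    rwa [dist_zero_right, norm_eL] at this

/-- An upper bound for the constant of the cone from a single competitor. -/
theorem hardyMorrey_cone_le (hn : 1 ≤ n) {p : ℝ} (hp : (n : ℝ) < p) {C : ℝ≥0∞}
    {v : EuclideanSpace ℝ (Fin n) → ℝ} (hv : EN (ENNReal.ofReal p) C v) (hv1 : v (eL hn) = 1)
    (hv0 : ∀ x, x ∉ openCone n hn Real.pi → v x = 0) :
    hardyMorrey p (openCone n hn Real.pi) ≤ C ^ p := by
  have hn' : (1 : ℝ) ≤ n := by exact_mod_cast hn
  have hp0 : 0 < p := by linarith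
  obtain ⟨hc, G, hG, hw, hGC⟩ := hv
  have hadm : IsAdmissible p (openCone n hn Real.pi) v G :=
    ⟨hc, hG, isWeakGradient_of hw, hv0, ⟨eL hn, by rw [hv1]; norm_num⟩⟩
  have hinf : hardyMorrey p (openCone n hn Real.pi) ≤
      eLpNorm G (ENNReal.ofReal p) volume ^ p /
        eLpNorm (fun x => v x / infDist x (openCone n hn Real.pi)ᶜ ^ (1 - (n : ℝ) / p)) ⊤
        (volume.restrict (openCone n hn Real.pi)) ^ p :=
    iInf_le_of_le v (iInf_le_of_le G (iInf_le_of_le hadm le_rfl))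
  refine hinf.trans ?_
  have hβ : 0 < 1 - (n : ℝ) / p := by
    rw [sub_pos, div_lt_one hp0]
    exact hp
  obtain ⟨hd0, hd1⟩ := infDist_eL hn
  have hden : 1 ≤ eLpNorm (fun x => v x / infDist x (openCone n hn Real.pi)ᶜ ^ (1 - (n : ℝ) / p)) ⊤
      (volume.restrict (openCone n hn Real.pi)) := by
    have hcont : ContinuousAt
        (fun x => v x / infDist x (openCone n hn Real.pi)ᶜ ^ (1 - (n : ℝ) / p)) (eL hn) := by
      refine ContinuousAt.div hc.continuousAt ?_ (Real.rpow_pos_of_pos hd0 _).ne'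
      exact (continuous_infDist_pt _).continuousAt.rpow_const (Or.inl hd0.ne')
    refine le_trans ?_ (enorm_le_essSup (isOpen_cone hn) (eL_mem hn) hcont)
    rw [hv1, ← ofReal_norm, ← ENNReal.ofReal_one]
    refine ENNReal.ofReal_le_ofReal ?_
    have h1 : infDist (eL hn) (openCone n hn Real.pi)ᶜ ^ (1 - (n : ℝ) / p) ≤ 1 :=
      Real.rpow_le_one hd0.le hd1 hβ.le
    have h2 : 0 < infDist (eL hn) (openCone n hn Real.pi)ᶜ ^ (1 - (n : ℝ) / p) :=
      Real.rpow_pos_of_pos hd0 _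
    rw [norm_div, norm_one, Real.norm_of_nonneg h2.le]
    exact (one_le_div h2).2 h1
  calc eLpNorm G (ENNReal.ofReal p) volume ^ p /
        eLpNorm (fun x => v x / infDist x (openCone n hn Real.pi)ᶜ ^ (1 - (n : ℝ) / p)) ⊤
        (volume.restrict (openCone n hn Real.pi)) ^ p
      ≤ C ^ p / 1 ^ p := by gcongr
    _ = C ^ p := by simp

/-- The pointwise comparison. -/
theorem pointwise (hn : 1 ≤ n) {p : ℝ} (hp : (n : ℝ) < p) {Ω : Set (EuclideanSpace ℝ (Fin n))}
    (hΩ : IsOpen Ω) (hb : Bornology.IsBounded Ω)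
    (hS : Nonempty (frontier Ω ≃ₜ sphere (0 : EuclideanSpace ℝ (Fin n)) 1))
    {u : EuclideanSpace ℝ (Fin n) → ℝ}
    {G : EuclideanSpace ℝ (Fin n) → EuclideanSpace ℝ (Fin n)} (h : IsAdmissible p Ω u G)
    {x0 : EuclideanSpace ℝ (Fin n)} (hx0 : x0 ∈ Ω) :
    hardyMorrey p (openCone n hn Real.pi) * ‖u x0 / infDist x0 Ωᶜ ^ (1 - (n : ℝ) / p)‖ₑ ^ p ≤
      eLpNorm G (ENNReal.ofReal p) volume ^ p := by
  have hn' : (1 : ℝ) ≤ n := by exact_mod_cast hn
  have hp0 : 0 < p := by linarith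
  have hp1 : 1 < p := by linarith
  have hP1 : 1 < ENNReal.ofReal p := by
    rw [← ENNReal.ofReal_one, ENNReal.ofReal_lt_ofReal_iff hp0]
    exact hp1
  have hPt : ENNReal.ofReal p ≠ ⊤ := ENNReal.ofReal_ne_top
  have hPr : (ENNReal.ofReal p).toReal = p := ENNReal.toReal_ofReal hp0.le
  have hfin : Module.finrank ℝ (EuclideanSpace ℝ (Fin n)) = n := by simp
  have : NeZero n := ⟨by omega⟩
  have hEN : EN (ENNReal.ofReal p) (eLpNorm G (ENNReal.ofReal p) volume) u :=
    ⟨h.continuous, G, h.memLp, isWeakGrad_of hp1 h.continuous h.memLp h.weak, le_rfl⟩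
  set C := eLpNorm G (ENNReal.ofReal p) volume with hC
  have hCt : C ≠ ⊤ := h.memLp.eLpNorm_ne_top
  by_cases hu0 : u x0 = 0
  · rw [hu0, zero_div, enorm_zero, ENNReal.zero_rpow_of_pos hp0, mul_zero]
    exact zero_le
  have hne : (Ωᶜ).Nonempty := by
    rw [nonempty_compl]
    rintro rfl
    have : Nontrivial (EuclideanSpace ℝ (Fin n)) :=
      Module.nontrivial_of_finrank_pos (R := ℝ) (by rw [hfin]; omega)
    exact NormedSpace.unbounded_univ ℝ _ hb
  have hcl : IsClosed (Ωᶜ) := hΩ.isClosed_compl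
  set d := infDist x0 Ωᶜ with hd
  have hd0 : 0 < d := by
    rw [hd, ← hcl.notMem_iff_infDist_pos hne]
    exact fun h => h hx0
  rcases Nat.lt_or_ge 1 n with hn2 | hn1
  · -- dimension at least two
    have hn2' : (2 : ℝ) ≤ n := by exact_mod_cast hn2
    have hP2 : 2 ≤ ENNReal.ofReal p := by
      have : (2 : ℝ≥0∞) = ENNReal.ofReal 2 := by norm_num
      rw [this]
      exact ENNReal.ofReal_le_ofReal (by linarith)
    have : Nontrivial (EuclideanSpace ℝ (Fin n)) :=
      Module.nontrivial_of_finrank_pos (R := ℝ) (by rw [hfin]; omega)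
    have hconn : IsPreconnected (frontier Ω) := by
      obtain ⟨Φ⟩ := hS
      have h1 : IsPreconnected (sphere (0 : EuclideanSpace ℝ (Fin n)) 1) := by
        refine isPreconnected_sphere ?_ 0 1
        rw [← Module.finrank_eq_rank, hfin]
        exact_mod_cast hn2
      have h2 : PreconnectedSpace (sphere (0 : EuclideanSpace ℝ (Fin n)) 1) :=
        isPreconnected_iff_preconnectedSpace.1 h1
      have h3 : PreconnectedSpace (frontier Ω) := ⟨by
        have h4 := isPreconnected_univ.image Φ.symm Φ.symm.continuous.continuousOn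
        rwa [image_univ, Φ.symm.surjective.range_eq] at h4⟩
      exact isPreconnected_iff_preconnectedSpace.2 h3
    have hz : ∀ r : ℝ, d ≤ r → ∃ y, u y = 0 ∧ ‖y - x0‖ = r := by
      intro r hr
      obtain ⟨y, hy, hyr⟩ := exists_on_sphere hΩ hb hconn hx0 hr
      exact ⟨y, h.zero_outside y hy, hyr⟩
    obtain ⟨v, hv, hv1, hvr⟩ := exists_competitor hP2 hPt hCt (by rw [hfin, hPr]; exact hp)
      (norm_eL hn) hEN hu0 hd0 hz
    have hv0 : ∀ x, x ∉ openCone n hn Real.pi → v x = 0 := by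
      intro x hx
      rw [mem_cone, not_lt] at hx
      rw [eq_neg_smul_of_inner_le (norm_eL hn) hx]
      exact hvr _ (norm_nonneg _)
    have hle := hardyMorrey_cone_le hn hp hv hv1 hv0
    set κ : ℝ := |u x0| / d ^ (1 - (n : ℝ) / p) with hκ
    have hκ0 : 0 < κ := div_pos (abs_pos.2 hu0) (Real.rpow_pos_of_pos hd0 _)
    have hC' : ENNReal.ofReal (|(u x0)⁻¹| * d) *
        (ENNReal.ofReal ((d ^ Module.finrank ℝ (EuclideanSpace ℝ (Fin n)))⁻¹) ^
          (1 / ENNReal.ofReal p).toReal * C) = ENNReal.ofReal κ⁻¹ * C := by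
      rw [hfin, ENNReal.ofReal_rpow_of_nonneg (by positivity) ENNReal.toReal_nonneg, ← mul_assoc,
        ← ENNReal.ofReal_mul (by positivity)]
      congr 2
      have h1 : (1 / ENNReal.ofReal p).toReal = 1 / p := by
        rw [ENNReal.toReal_div, hPr]
        simp
      rw [h1, hκ, inv_div, abs_inv]
      have h2 : ((d ^ n)⁻¹) ^ (1 / p) = d ^ (-((n : ℝ) / p)) := by
        rw [← Real.rpow_natCast, ← Real.rpow_neg hd0.le, ← Real.rpow_mul hd0.le]
        congr 1
        ring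
      have h3 : d ^ (1 - (n : ℝ) / p) = d * d ^ (-((n : ℝ) / p)) := by
        rw [sub_eq_add_neg, Real.rpow_add hd0, Real.rpow_one]
      rw [h2, h3]
      field_simp
    rw [hC'] at hle
    have hnorm : ‖u x0 / d ^ (1 - (n : ℝ) / p)‖ₑ = ENNReal.ofReal κ := by
      rw [← ofReal_norm, norm_div, Real.norm_eq_abs,
        Real.norm_of_nonneg (Real.rpow_nonneg hd0.le _)]
    rw [hnorm]
    calc hardyMorrey p (openCone n hn Real.pi) * ENNReal.ofReal κ ^ p
        ≤ (ENNReal.ofReal κ⁻¹ * C) ^ p * ENNReal.ofReal κ ^ p := by gcongr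
      _ = (ENNReal.ofReal κ⁻¹ * ENNReal.ofReal κ) ^ p * C ^ p := by
          rw [ENNReal.mul_rpow_of_nonneg _ _ hp0.le, ENNReal.mul_rpow_of_nonneg _ _ hp0.le]
          ring
      _ = C ^ p := by
          rw [← ENNReal.ofReal_mul (by positivity), inv_mul_cancel₀ hκ0.ne']
          simp
  · -- dimension one
    have hn1' : n = 1 := by omega
    have hnr : (n : ℝ) = 1 := by rw [hn1']; norm_num
    have hle : hardyMorrey p (openCone n hn Real.pi) ≤ 1 := by
      have := hardyMorrey_cone_le hn hp (EN_test_one hP1 hPt (by rw [hfin, hn1']) (norm_eL hn))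
        (by rw [real_inner_self_eq_norm_sq, norm_eL]; norm_num) (by
          intro x hx
          rw [mem_cone, not_lt] at hx
          have h1 : ⟪x, eL hn⟫ ≤ 0 := hx.trans (neg_nonpos.2 (norm_nonneg _))
          exact max_eq_left ((min_le_left _ _).trans h1))
      simpa using this
    obtain ⟨y, hy, hyd⟩ := hcl.exists_infDist_eq_dist hne x0
    have hm := morrey_one hP1 hPt (by rw [hfin, hn1']) hEN y x0
    rw [h.zero_outside y hy, sub_zero, hPr] at hm
    have hyd' : ‖x0 - y‖ₑ = ENNReal.ofReal d := by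
      rw [← ofReal_norm, ← dist_eq_norm, ← hyd]
    rw [hyd', ENNReal.ofReal_rpow_of_pos hd0] at hm
    have hdp : 0 < d ^ (1 - 1 / p) := Real.rpow_pos_of_pos hd0 _
    have hq : ‖u x0 / d ^ (1 - (n : ℝ) / p)‖ₑ ≤ C := by
      rw [hnr, div_eq_mul_inv, enorm_mul, enorm_inv hdp.ne']
      have h2 : ‖d ^ (1 - 1 / p)‖ₑ = ENNReal.ofReal (d ^ (1 - 1 / p)) := by
        rw [← ofReal_norm, Real.norm_of_nonneg hdp.le]
      rw [h2, ← ENNReal.ofReal_inv_of_pos hdp]
      calc ‖u x0‖ₑ * ENNReal.ofReal (d ^ (1 - 1 / p))⁻¹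
          ≤ (ENNReal.ofReal (d ^ (1 - 1 / p)) * C) * ENNReal.ofReal (d ^ (1 - 1 / p))⁻¹ := by
            gcongr
        _ = (ENNReal.ofReal (d ^ (1 - 1 / p)) * ENNReal.ofReal (d ^ (1 - 1 / p))⁻¹) * C := by ring
        _ = C := by
            rw [← ENNReal.ofReal_mul hdp.le, mul_inv_cancel₀ hdp.ne']
            simp
    calc hardyMorrey p (openCone n hn Real.pi) * ‖u x0 / d ^ (1 - (n : ℝ) / p)‖ₑ ^ p
        ≤ 1 * C ^ p := by gcongr
      _ = C ^ p := one_mul _

end proof

/-- **Main theorem.** For every `n ≥ 1`, every real `p > n` and every bounded open `Ω ⊂ ℝⁿ` whose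
boundary is homeomorphic to the unit sphere of `ℝⁿ`, the Hardy–Morrey constants satisfy
`λ_p(Ω) ≥ λ_p(𝒞^n_π)`. -/
theorem result (n : ℕ) (hn : 1 ≤ n) (p : ℝ) (hp : (n : ℝ) < p)
    (Ω : Set (EuclideanSpace ℝ (Fin n))) (hΩ : IsOpen Ω) (hb : Bornology.IsBounded Ω)
    (hS : Nonempty (frontier Ω ≃ₜ sphere (0 : EuclideanSpace ℝ (Fin n)) 1)) :
    hardyMorrey p (openCone n hn Real.pi) ≤ hardyMorrey p Ω := by
  have hn' : (1 : ℝ) ≤ n := by exact_mod_cast hn
  have hp0 : 0 < p := by linarith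
  refine le_iInf fun u => le_iInf fun G => le_iInf fun h => ?_
  set Λ := hardyMorrey p (openCone n hn Real.pi) with hΛ
  set C := eLpNorm G (ENNReal.ofReal p) volume with hC
  have hCt : C ≠ ⊤ := h.memLp.eLpNorm_ne_top
  have hCpt : C ^ p ≠ ⊤ := ENNReal.rpow_ne_top_of_nonneg hp0.le hCt
  set f : EuclideanSpace ℝ (Fin n) → ℝ := fun x => u x / infDist x Ωᶜ ^ (1 - (n : ℝ) / p) with hf
  set D := eLpNorm f ⊤ (volume.restrict Ω) with hD
  have hcl : IsClosed (Ωᶜ) := hΩ.isClosed_compl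
  have hne : (Ωᶜ).Nonempty := by
    rw [nonempty_compl]
    rintro rfl
    have hfin : Module.finrank ℝ (EuclideanSpace ℝ (Fin n)) = n := by simp
    have : Nontrivial (EuclideanSpace ℝ (Fin n)) :=
      Module.nontrivial_of_finrank_pos (R := ℝ) (by rw [hfin]; omega)
    exact NormedSpace.unbounded_univ ℝ _ hb
  have hD0 : D ≠ 0 := by
    obtain ⟨x, hx⟩ := h.ne_zero
    have hxΩ : x ∈ Ω := by
      by_contra hcon
      exact hx (h.zero_outside x hcon)
    have hd0 : 0 < infDist x Ωᶜ := by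
      rw [← hcl.notMem_iff_infDist_pos hne]
      exact fun h => h hxΩ
    have hcont : ContinuousAt f x := by
      refine ContinuousAt.div h.continuous.continuousAt ?_ (Real.rpow_pos_of_pos hd0 _).ne'
      exact (continuous_infDist_pt _).continuousAt.rpow_const (Or.inl hd0.ne')
    have h1 := Pool.Agent.MP_f42450_an.enorm_le_essSup hΩ hxΩ hcont
    have h2 : ‖f x‖ₑ ≠ 0 := by
      rw [enorm_ne_zero, hf]
      exact div_ne_zero hx (Real.rpow_pos_of_pos hd0 _).ne'
    intro h3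
    rw [hD] at h3
    rw [h3] at h1
    exact h2 (le_antisymm h1 zero_le)
  have hDp0 : D ^ p ≠ 0 := by
    rw [Ne, ENNReal.rpow_eq_zero_iff]
    push Not
    exact ⟨fun h => absurd h hD0, fun _ => hp0.le⟩
  rw [ENNReal.le_div_iff_mul_le (Or.inl hDp0) (Or.inr hCpt)]
  rcases eq_or_ne Λ 0 with h0 | h0
  · rw [h0, zero_mul]
    exact zero_le
  have hpt : ∀ x ∈ Ω, ‖f x‖ₑ ≤ (C ^ p / Λ) ^ (1 / p) := by
    intro x hx
    have h1 := pointwise hn hp hΩ hb hS h hx
    have h2 : ‖f x‖ₑ ^ p ≤ C ^ p / Λ := by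
      rw [ENNReal.le_div_iff_mul_le (Or.inl h0) (Or.inr hCpt), mul_comm]
      exact h1
    calc ‖f x‖ₑ = (‖f x‖ₑ ^ p) ^ (1 / p) := by
          rw [← ENNReal.rpow_mul, mul_one_div_cancel hp0.ne', ENNReal.rpow_one]
      _ ≤ _ := by gcongr
  have hDle : D ≤ (C ^ p / Λ) ^ (1 / p) := by
    rw [hD, eLpNorm_exponent_top]
    refine eLpNormEssSup_le_of_ae_enorm_bound ?_
    rw [ae_restrict_iff' hΩ.measurableSet]
    exact Eventually.of_forall hpt
  calc Λ * D ^ p ≤ Λ * ((C ^ p / Λ) ^ (1 / p)) ^ p := by gcongr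
    _ = Λ * (C ^ p / Λ) := by
        rw [← ENNReal.rpow_mul, one_div_mul_cancel hp0.ne', ENNReal.rpow_one]
    _ ≤ C ^ p := ENNReal.mul_div_le

end Pool.Agent.Results.MP_f42450_an.HardyMorreySphere
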